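import Pool.Agent.Helper47_DR.Core

/-!
# Children in the tree of wild maximal ideals

For `p = r l s^(j+1)` (`l` central) and `(1 - b p) x` in `sA` the set `WS s (b p x)` consists of
crossing points `M`, i.e. `b p s z = s z'` with `z` outside `M` and `z' - z` in `M`.  For different
pairs `(l, j)` these sets are disjoint.
-/

set_option autoImplicit false

namespace Pool.Agent.Helper47_DR

open Pool.Agent.Helper93_DR

variable {A : Type*} [Ring A]

theorem key' (h : RD A) {s b p x w : A} (hx : (1 - b * p) * x = s * w) {M : Set A}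
    (hM : M ∈ WS s (b * (p * x))) : ∃ z z', z ∉ M ∧ z' - z ∈ M ∧ b * (p * (s * z)) = s * z' := by
  have e0 : b * (p * x) = x - s * w := by
    rw [← hx]; noncomm_ring
  have hxM : ∀ r v : A, x * r = s * v → r ∈ M := by
    intro r v hr
    refine hM.2 r (v - w * r) ?_
    rw [e0, sub_mul, hr]
    noncomm_ring
  obtain ⟨α, β, c, d, h1, h2, h3⟩ := h s x
  have hβ : β ∈ M := hxM β d h3
  have hα : α ∉ M := by
    intro hα
    apply hM.1.one
    rw [← h1]
    exact hM.1.add _ hα _ hβ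
  have hc : c ∈ M := hxM c α h2.symm
  refine ⟨α, α - w * c, hα, ?_, ?_⟩
  · have : α - w * c - α = -(w * c) := by abel
    rw [this]
    exact hM.1.neg (hM.1.left h w hc)
  · have e1 : b * (p * (s * α)) = (b * (p * x)) * c := by
      rw [h2]; noncomm_ring
    rw [e1, e0, sub_mul, ← h2]
    noncomm_ring

/-- `z'` is outside `M` too -/
theorem not_mem_of_sub {M : Set A} (hM : MR M) {z z' : A} (hz : z ∉ M) (h : z' - z ∈ M) :
    z' ∉ M := fun hh => hz (hM.of_sub' h hh)

/-- comparison of two crossings -/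
theorem cross {s b q l l' z z' u u' v c : A} {m : ℕ} (hs : ∀ z, s * z = 0 → z = 0)
    (hl : ∀ x, l * x = x * l) (hl' : ∀ x, l' * x = x * l')
    (e1 : l * (b * (q * z)) = s * z') (e2 : l' * (b * (q * (s ^ m * u))) = s * u')
    (e3 : s ^ m * u * v = z * c) : l' * z' * c = l * u' * v := by
  have h1 : s * (l' * z' * c) = l' * (s * z') * c := by
    rw [mul_assoc l', ← mul_assoc s, ← hl' s]; noncomm_ring
  have h2 : s * (l * u' * v) = l * (s * u') * v := by
    rw [mul_assoc l, ← mul_assoc s, ← hl s]; noncomm_ring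
  have h3 : l' * (s * z') * c = l * (s * u') * v := by
    rw [← e1, ← e2]
    have : l' * (l * (b * (q * z))) * c = l' * l * (b * (q * (z * c))) := by noncomm_ring
    rw [this, ← e3, hl' l]
    noncomm_ring
  have := hs (l' * z' * c - l * u' * v) (by rw [mul_sub, h1, h2, h3, sub_self])
  exact sub_eq_zero.1 this

/-- the child with parameters `l`, `j` -/
def chi (r s l : A) (j : ℕ) : A := r * l * s ^ (j + 1)

theorem chi_eq {r s l b : A} (hl : ∀ x, l * x = x * l) (j : ℕ) (z : A) :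
    b * (chi r s l j * (s * z)) = l * (b * (r * s ^ (j + 2) * z)) := by
  unfold chi
  have : l * (b * (r * s ^ (j + 2) * z)) = b * (r * (l * s ^ (j + 2)) * z) := by
    rw [← mul_assoc, hl b, mul_assoc]
    congr 1
    rw [← mul_assoc, ← mul_assoc, hl r]
    noncomm_ring
  rw [this, pow_succ s (j + 1)]
  noncomm_ring

theorem disj_lt (h : RD A) {s b r l l' x x' w w' : A} {j j' : ℕ} (hs : ∀ z, s * z = 0 → z = 0)
    (hl : ∀ x, l * x = x * l) (hl' : ∀ x, l' * x = x * l') (hj : j < j')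
    (hx : (1 - b * chi r s l j) * x = s * w) (hx' : (1 - b * chi r s l' j') * x' = s * w')
    {M : Set A} (hlM : l ∉ M)
    (hM : M ∈ WS s (b * (chi r s l j * x))) (hM' : M ∈ WS s (b * (chi r s l' j' * x'))) :
    False := by
  have hsM : s ∈ M := WS_not_mem h hM
  obtain ⟨z, z', hz, hz', e1⟩ := key' h hx hM
  obtain ⟨u, u', hu, hu', e2⟩ := key' h hx' hM'
  rw [chi_eq hl] at e1
  rw [chi_eq hl'] at e2
  have hz'' := not_mem_of_sub hM.1 hz hz'
  have hu'' := not_mem_of_sub hM.1 hu hu'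
  obtain ⟨m, rfl⟩ : ∃ m, j' = j + (m + 1) := ⟨j' - j - 1, by omega⟩
  obtain ⟨v, c, hv, e3⟩ := hM.1.ore h (s ^ (m + 1) * u) hz
  have hc : c ∈ M := by
    by_contra hc
    have := hM.1.prime h hz hc
    rw [← e3, pow_succ', mul_assoc, mul_assoc] at this
    exact this (hM.1.mul _ hsM _)
  have e2' : l' * (b * (r * s ^ (j + 2) * (s ^ (m + 1) * u))) = s * u' := by
    rw [← e2]
    have : s ^ (j + (m + 1) + 2) = s ^ (j + 2) * s ^ (m + 1) := by
      rw [← pow_add]; congr 1; omega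
    rw [this]
    noncomm_ring
  have e4 := cross hs hl hl' e1 e2' e3
  have h1 : l' * z' * c ∈ M := hM.1.left h _ hc
  rw [e4] at h1
  exact hM.1.prime h (hM.1.prime h hlM hu'') hv h1

theorem disj_eq (h : RD A) {s b r l l' x x' w w' : A} {j : ℕ} (hs : ∀ z, s * z = 0 → z = 0)
    (hl : ∀ x, l * x = x * l) (hl' : ∀ x, l' * x = x * l')
    (hx : (1 - b * chi r s l j) * x = s * w) (hx' : (1 - b * chi r s l' j) * x' = s * w')
    {M : Set A} (hlM : l - l' ∉ M)
    (hM : M ∈ WS s (b * (chi r s l j * x))) (hM' : M ∈ WS s (b * (chi r s l' j * x'))) :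
    False := by
  obtain ⟨z, z', hz, hz', e1⟩ := key' h hx hM
  obtain ⟨u, u', hu, hu', e2⟩ := key' h hx' hM'
  rw [chi_eq hl] at e1
  rw [chi_eq hl'] at e2
  obtain ⟨v, c, hv, e3⟩ := hM.1.ore h u hz
  have e4 := cross (m := 0) hs hl hl' e1 (by simpa using e2) (by simpa using e3)
  -- modulo `M`
  have h1 : l' * (z' - z) * c ∈ M := hM.1.mul _ (hM.1.left h _ hz') _
  have h2 : l * (u' - u) * v ∈ M := hM.1.mul _ (hM.1.left h _ hu') _
  have h3 : (l - l') * (u * v) ∈ M := by
    have : (l - l') * (u * v) = l' * (z' - z) * c - l * (u' - u) * v := by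
      have e5 : l' * (z' - z) * c = l * u' * v - l' * (u * v) := by
        rw [e3, ← e4]; noncomm_ring
      rw [e5]
      noncomm_ring
    rw [this]
    exact hM.1.sub h1 h2
  exact hM.1.prime h hlM (hM.1.prime h hu hv) h3

/-- crossing points -/
theorem cross_point (h : RD A) {s b r l x w : A} {j : ℕ}
    (hx : (1 - b * chi r s l j) * x = s * w) {M : Set A}
    (hM : M ∈ WS s (b * (chi r s l j * x))) :
    MR M ∧ s ∈ M ∧ ∃ z, z ∉ M ∧ ∃ m ∈ M, (b * (r * l * s ^ j)) * s ^ 2 * z = s * (z + m) := by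
  obtain ⟨z, z', hz, hz', e1⟩ := key' h hx hM
  refine ⟨hM.1, WS_not_mem h hM, z, hz, z' - z, hz', ?_⟩
  have : z + (z' - z) = z' := by abel
  rw [this, ← e1, chi, pow_succ]
  noncomm_ring

/-- outside all maximal right ideals there are only units -/
theorem isUnit_of (h : RD A) {u : A} (hu : ∀ M : Set A, MR M → u ∉ M) : IsUnit u := by
  have hr : ∀ v : A, (∀ M : Set A, MR M → v ∉ M) → ∃ w, v * w = 1 := by
    intro v hv
    by_contra hno
    obtain ⟨M, hM, hH⟩ := exists_MR {x : A | ∃ w, v * w = x} ⟨0, by simp⟩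
      (by
        rintro x ⟨w, hw⟩ y ⟨w', hw'⟩
        exact ⟨w + w', by rw [mul_add, hw, hw']⟩)
      (by
        rintro x ⟨w, hw⟩ r
        exact ⟨w * r, by rw [← mul_assoc, hw]⟩)
      (by
        rintro ⟨w, hw⟩
        exact hno ⟨w, hw⟩)
    exact hv M hM (hH ⟨1, mul_one v⟩)
  obtain ⟨v, hv⟩ := hr u hu
  obtain ⟨w, hw⟩ := hr v (by
    intro M hM hvM
    apply hM.one
    rw [← hv]
    exact hM.left h _ hvM)
  have : w = u := by
    calc w = (u * v) * w := by rw [hv, one_mul]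
      _ = u * (v * w) := by rw [mul_assoc]
      _ = u := by rw [hw, mul_one]
  subst this
  exact ⟨⟨w, v, hv, hw⟩, rfl⟩

/-- a unit of the form `1 - c s + s y` gives a solution `x` of `(1 - c s) x = s w` -/
theorem sol_of_unit {s c y : A} (hu : IsUnit (1 - c * s + s * y)) (hs : Reg s) :
    ∃ x w, Reg x ∧ (1 - c * s) * x = s * w := by
  obtain ⟨u, hu⟩ := hu
  refine ⟨↑u⁻¹ * s, 1 - y * ↑u⁻¹ * s, ⟨?_, ?_⟩, ?_⟩
  · intro x hx
    have h1 : x * ↑u⁻¹ = 0 := hs.1 _ (by rw [mul_assoc]; exact hx)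
    have : x = x * ↑u⁻¹ * ↑u := by rw [mul_assoc, Units.inv_mul, mul_one]
    rw [this, h1, zero_mul]
  · intro x hx
    have h1 : s * x = 0 := by
      have : s * x = ↑u * (↑u⁻¹ * s * x) := by
        rw [mul_assoc, ← mul_assoc (u : A), Units.mul_inv, one_mul]
      rw [this, hx, mul_zero]
    exact hs.2 _ h1
  · have : (1 - c * s) = ↑u - s * y := by rw [hu]; abel
    rw [this]
    have e : (↑u - s * y) * (↑u⁻¹ * s) = (↑u * ↑u⁻¹) * s - s * (y * ↑u⁻¹ * s) := by noncomm_ring
    rw [e, Units.mul_inv]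
    noncomm_ring

end Pool.Agent.Helper47_DR
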