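import Pool.Agent.Helper93_DR.Ore

/-!
# Wild maximal ideals of a right distributive ring

For `s`, `b` in a right distributive ring let `WS s b` be the set of the maximal right ideals `M`
which contain `(sA : b) = {r : b r in sA}`.  It is empty iff `b` is in `sA`, and
`WS s (b t)` is contained in `WS s b`.
-/

set_option autoImplicit false

namespace Pool.Agent.Helper47_DR

open Pool.Agent.Helper93_DR

variable {A : Type*} [Ring A]

/-- the maximal right ideals which contain the right ideal `(sA : b)` -/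
def WS (s b : A) : Set (Set A) := {M | MR M ∧ ∀ r w : A, b * r = s * w → r ∈ M}

theorem WS_mul (h : RD A) (s b t : A) : WS s (b * t) ⊆ WS s b := by
  rintro M ⟨hM, hW⟩
  refine ⟨hM, fun r w hr => ?_⟩
  by_contra hrM
  obtain ⟨v, q, hv, e⟩ := hM.ore h t hrM
  apply hv
  refine hW v (w * q) ?_
  rw [mul_assoc, e, ← mul_assoc, hr, mul_assoc]

theorem WS_not_mem (h : RD A) {s b : A} {M : Set A} (hM : M ∈ WS s b) : s ∈ M := by
  by_contra hs
  obtain ⟨v, q, hv, e⟩ := hM.1.ore h b hs
  exact hv (hM.2 v q e)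

theorem exists_of_WS_eq_empty {s b : A} (hE : WS s b = ∅) : ∃ w, b = s * w := by
  by_contra hno
  obtain ⟨M, hM, hH⟩ := exists_MR {r : A | ∃ w, b * r = s * w} ⟨0, by simp⟩
    (by
      rintro x ⟨w, hw⟩ y ⟨v, hv⟩
      exact ⟨w + v, by rw [mul_add, mul_add, hw, hv]⟩)
    (by
      rintro x ⟨w, hw⟩ r
      exact ⟨w * r, by rw [← mul_assoc, hw, mul_assoc]⟩)
    (by
      rintro ⟨w, hw⟩
      exact hno ⟨w, by simpa using hw⟩)
  have : M ∈ WS s b := ⟨hM, fun r w hr => hH ⟨w, hr⟩⟩
  rw [hE] at this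
  exact this

end Pool.Agent.Helper47_DR
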