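import Pool.Agent.Helper47_DR.Tree

/-!
# The right Ore condition for right distributive rings with few crossing points
-/

set_option autoImplicit false

namespace Pool.Agent.Helper47_DR

open Pool.Agent.Helper93_DR

universe u

section Domain

variable {R : Type*} [Ring R]

/-- `[x, y^(n+1)] = (n+1) y^n [x,y]` if `[x,y]` commutes with `y` -/
theorem comm_pow_succ {x y e : R} (he : x * y - y * x = e) (hey : e * y = y * e) (n : ℕ) :
    x * y ^ (n + 1) - y ^ (n + 1) * x = ((n + 1 : ℕ) : R) * (y ^ n * e) := by
  induction n with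
  | zero => simp [he]
  | succ n ih =>
    have e1 : x * y ^ (n + 1 + 1) - y ^ (n + 1 + 1) * x
        = (x * y ^ (n + 1) - y ^ (n + 1) * x) * y + y ^ (n + 1) * (x * y - y * x) := by
      rw [pow_succ y (n + 1)]
      noncomm_ring
    rw [e1, ih, he]
    have e2 : ((n + 1 : ℕ) : R) * (y ^ n * e) * y = ((n + 1 : ℕ) : R) * (y ^ (n + 1) * e) := by
      rw [mul_assoc, mul_assoc (y ^ n), hey, pow_succ]
      noncomm_ring
    rw [e2]
    push_cast
    noncomm_ring

/-- in a domain `[x,y] y^j = 1` and `y^m = 1`, `m > 0`, is impossible -/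
theorem no_weyl_torsion [Nontrivial R] [NoZeroDivisors R] {x y : R} {j m : ℕ} (hm : 0 < m)
    (h1 : (x * y - y * x) * y ^ j = 1) (h2 : y ^ m = 1) : False := by
  classical
  -- minimal `m`
  have hex : ∃ m, 0 < m ∧ y ^ m = 1 := ⟨m, hm, h2⟩
  obtain ⟨hm0, hm1⟩ := Nat.find_spec hex
  have hmin := fun k hk => Nat.find_min hex (m := k) hk
  generalize Nat.find hex = k at hm0 hm1 hmin
  set e := x * y - y * x with he
  have hy0 : y ≠ 0 := by
    intro hy
    rw [hy, zero_pow hm0.ne'] at hm1
    exact zero_ne_one hm1
  have hyj0 : y ^ j ≠ 0 := pow_ne_zero _ hy0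
  have hey : e * y = y * e := by
    have h3 : e * y * y ^ j = y * e * y ^ j := by
      have : e * y * y ^ j = e * y ^ j * y := by
        rw [mul_assoc, mul_assoc, ← pow_succ', ← pow_succ]
      rw [this, h1, one_mul, mul_assoc, h1, mul_one]
    have h4 : (e * y - y * e) * y ^ j = 0 := by rw [sub_mul, h3, sub_self]
    rcases mul_eq_zero.1 h4 with h5 | h5
    · exact sub_eq_zero.1 h5
    · exact absurd h5 hyj0
  have he0 : e ≠ 0 := by
    intro h0
    rw [h0, zero_mul] at h1
    exact zero_ne_one h1
  obtain ⟨n, rfl⟩ : ∃ n, k = n + 1 := ⟨k - 1, by omega⟩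
  have h3 := comm_pow_succ he.symm hey n
  rw [hm1, mul_one, one_mul, sub_self] at h3
  have hk0 : ((n + 1 : ℕ) : R) = 0 := by
    rcases mul_eq_zero.1 h3.symm with h4 | h4
    · exact h4
    · exact absurd h4 (mul_ne_zero (pow_ne_zero _ hy0) he0)
  obtain ⟨p, hp⟩ := CharP.exists R
  have hpd : p ∣ n + 1 := (CharP.cast_eq_zero_iff R p (n + 1)).1 hk0
  have hp0 : p ≠ 0 := by
    rintro rfl
    rw [zero_dvd_iff] at hpd
    omega
  have hpp : p.Prime := by
    rcases CharP.char_is_prime_or_zero R p with h4 | h4
    · exact h4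
    · exact absurd h4 hp0
  have : Fact p.Prime := ⟨hpp⟩
  have : ExpChar R p := ExpChar.prime hpp
  obtain ⟨k', hk'⟩ := hpd
  have hk'0 : 0 < k' := by
    rcases Nat.eq_zero_or_pos k' with h4 | h4
    · rw [h4, mul_zero] at hk'; omega
    · exact h4
  have h5 : (y ^ k' - 1) ^ p = 0 := by
    have hc : Commute (y ^ k') (1 : R) := Commute.one_right _
    rw [sub_pow_expChar_of_commute p hc, one_pow, ← pow_mul, mul_comm k' p, ← hk', hm1, sub_self]
  have h6 : y ^ k' = 1 := sub_eq_zero.1 (pow_eq_zero_iff hpp.ne_zero |>.1 h5)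
  refine hmin k' ?_ ⟨hk'0, h6⟩
  have : 2 ≤ p := hpp.two_le
  nlinarith

end Domain

variable {A : Type u} [Ring A]

/-- the maximal right ideals `M` without `r` such that `s` is in a Weyl pair modulo `M` -/
def Wey (s r : A) : Set (Set A) := {M | MR M ∧ r ∉ M ∧ ∃ x, x * s - s * x - 1 ∈ M}

/-- the crossing points -/
def Cro (a s : A) : Set (Set A) :=
  {M | MR M ∧ s ∈ M ∧ ∃ z, z ∉ M ∧ ∃ m ∈ M, a * s ^ 2 * z = s * (z + m)}

theorem mem_wey (h : RD A) {b r t s : A} {M : Set A} (hM : MR M)
    (hu : 1 - b * (r * t) * s + s * (b * (r * t)) ∈ M) : M ∈ Wey s r := by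
  refine ⟨hM, ?_, b * (r * t), ?_⟩
  · intro hr
    have hc : b * (r * t) ∈ M := hM.left h _ (hM.mul _ hr _)
    apply hM.one
    have : (1 : A) = (1 - b * (r * t) * s + s * (b * (r * t))) + b * (r * t) * s
        - s * (b * (r * t)) := by abel
    rw [this]
    exact hM.sub (hM.add _ hu _ (hM.mul _ hc _)) (hM.left h _ hc)
  · have : b * (r * t) * s - s * (b * (r * t)) - 1
        = -(1 - b * (r * t) * s + s * (b * (r * t))) := by abel
    rw [this]
    exact hM.neg hu

/-- at most one exponent is bad for a given `M` -/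
theorem atmost (h : RD A) {x s : A} {M : Set A} (hM : MR M) {j j' : ℕ} (hj : j < j')
    (h1 : (x * s - s * x) * s ^ j - 1 ∈ M) (h2 : (x * s - s * x) * s ^ j' - 1 ∈ M) : False := by
  obtain ⟨I, hI, hIM⟩ := hM.ideal h
  have : I.IsTwoSided := ⟨fun {a} b ha => by
    have ha' : a ∈ M := by rw [← hIM]; exact ha
    have := hM.mul a ha' b
    rw [← hIM] at this
    exact this⟩
  have : Nontrivial (A ⧸ I) := Ideal.Quotient.nontrivial_iff.2 hI.ne_top
  have hmem : ∀ x : A, Ideal.Quotient.mk I x = 0 ↔ x ∈ M := by
    intro x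
    rw [Ideal.Quotient.eq_zero_iff_mem, ← hIM]
    rfl
  have : NoZeroDivisors (A ⧸ I) := by
    refine ⟨?_⟩
    intro x y hxy
    obtain ⟨x, rfl⟩ := Ideal.Quotient.mk_surjective x
    obtain ⟨y, rfl⟩ := Ideal.Quotient.mk_surjective y
    rw [← map_mul, hmem] at hxy
    by_contra hh
    rw [not_or, hmem, hmem] at hh
    exact hM.prime h hh.1 hh.2 hxy
  set X := Ideal.Quotient.mk I x
  set S := Ideal.Quotient.mk I s
  have e1 : (X * S - S * X) * S ^ j = 1 := by
    have := (hmem _).2 h1
    rw [map_sub, map_mul, map_sub, map_mul, map_mul, map_pow, map_one] at this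
    exact sub_eq_zero.1 this
  have e2 : (X * S - S * X) * S ^ j' = 1 := by
    have := (hmem _).2 h2
    rw [map_sub, map_mul, map_sub, map_mul, map_mul, map_pow, map_one] at this
    exact sub_eq_zero.1 this
  obtain ⟨m, rfl⟩ : ∃ m, j' = j + (m + 1) := ⟨j' - j - 1, by omega⟩
  have e3 : S ^ (m + 1) = 1 := by
    rw [pow_add, ← mul_assoc, e1, one_mul] at e2
    exact e2
  exact no_weyl_torsion (Nat.succ_pos m) e1 e3

theorem Reg.mul {x y : A} (hx : Reg x) (hy : Reg y) : Reg (x * y) := by
  refine ⟨fun z hz => ?_, fun z hz => ?_⟩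
  · rw [← mul_assoc] at hz
    exact hx.1 _ (hy.1 _ hz)
  · rw [mul_assoc] at hz
    exact hy.2 _ (hx.2 _ hz)

theorem Reg.one : Reg (1 : A) := ⟨fun x hx => by simpa using hx, fun x hx => by simpa using hx⟩

theorem Reg.pow {x : A} (hx : Reg x) (n : ℕ) : Reg (x ^ n) := by
  induction n with
  | zero => rw [pow_zero]; exact Reg.one
  | succ n ih => rw [pow_succ]; exact Reg.mul ih hx

theorem Reg.unit {x : A} (hx : IsUnit x) : Reg x := by
  obtain ⟨u, rfl⟩ := hx
  refine ⟨fun z hz => ?_, fun z hz => ?_⟩
  · simpa using hz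
  · simpa using hz

theorem right_core (h : RD A) (a s r : A) (hs : Reg s) (hr : Reg r) {ι : Type u} [Nonempty ι]
    (e : A → ι → A × ℕ) (he : ∀ b, Function.Injective (e b))
    (hcen : ∀ b i x, (e b i).1 * x = x * (e b i).1) (hun : ∀ b i, IsUnit (e b i).1)
    (hdif : ∀ b i i', (e b i).1 ≠ (e b i').1 → IsUnit ((e b i).1 - (e b i').1))
    (hx : ∀ b i, ∃ x w, Reg x ∧ (1 - b * (r * (e b i).1 * s ^ (e b i).2) * s) * x = s * w)
    (hW : ∀ c, Cardinal.mk (Cro c s) < Cardinal.mk ι ^ Cardinal.aleph0.{u}) :
    ∃ b t, Reg t ∧ a * t = s * b := by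
  have hx : ∀ b i, ∃ x w, Reg x ∧ (1 - b * chi r s (e b i).1 (e b i).2) * x = s * w := by
    intro b i
    obtain ⟨x, w, hx, hxw⟩ := hx b i
    refine ⟨x, w, hx, ?_⟩
    rw [← hxw]
    unfold chi
    rw [pow_succ]
    noncomm_ring
  choose X V hX hXV using hx
  have hregq : ∀ b i, Reg (chi r s (e b i).1 (e b i).2 * X b i) := by
    intro b i
    exact Reg.mul (Reg.mul (Reg.mul hr (Reg.unit (hun b i))) (Reg.pow hs _)) (hX b i)
  obtain ⟨i0⟩ := ‹Nonempty ι›
  have hd : ∀ c i i', i ≠ i' → ∀ M, M ∈ WS s (c * (chi r s (e c i).1 (e c i).2 * X c i)) →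
      M ∈ WS s (c * (chi r s (e c i').1 (e c i').2 * X c i')) → False := by
    intro c i i' hii M hM hM'
    rcases lt_trichotomy (e c i).2 (e c i').2 with hlt | heq | hgt
    · exact disj_lt h hs.2 (hcen c i) (hcen c i') hlt (hXV c i) (hXV c i')
        (hM.1.unit_not_mem (hun c i)) hM hM'
    · have hne : (e c i).1 ≠ (e c i').1 := by
        intro hh
        exact hii (he c (Prod.ext hh heq))
      have hx' := hXV c i'
      rw [← heq] at hx' hM'
      exact disj_eq h hs.2 (hcen c i) (hcen c i') (hXV c i) hx'
        (hM.1.unit_not_mem (hdif c i i' hne)) hM hM'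
    · exact disj_lt h hs.2 (hcen c i') (hcen c i) hgt (hXV c i') (hXV c i)
        (hM.1.unit_not_mem (hun c i')) hM' hM
  obtain ⟨t, w, ht, hw⟩ := tree h (a * (chi r s (e a i0).1 (e a i0).2 * X a i0)) s Reg Reg.one
    (fun x y hx hy => Reg.mul hx hy) (fun c i => chi r s (e c i).1 (e c i).2 * X c i) hregq hd
    (by
      refine lt_of_le_of_lt ?_ (hW (a * (r * (e a i0).1 * s ^ (e a i0).2)))
      exact Cardinal.mk_le_mk_of_subset fun M hM => cross_point h (hXV a i0) hM)
  refine ⟨w, chi r s (e a i0).1 (e a i0).2 * X a i0 * t, Reg.mul (hregq a i0) ht, ?_⟩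
  rw [← mul_assoc, hw]

/-- the bad parameters -/
theorem right_final (h : RD A) (C : Set A) (hC : ∀ c ∈ C, IsUnit c ∧ ∀ x, c * x = x * c)
    (hC' : ∀ c ∈ C, ∀ c' ∈ C, c ≠ c' → IsUnit (c - c')) (r : A) (hr : Reg r) (s : A) (hs : Reg s)
    (h1 : Cardinal.mk (Wey s r) < max Cardinal.aleph0.{u} (Cardinal.mk C) ∨
      ∀ c : A, ∃ x w, Reg x ∧ (1 - c * s) * x = s * w)
    (h2 : ∀ c, Cardinal.mk (Cro c s)
      < (max Cardinal.aleph0.{u} (Cardinal.mk C)) ^ Cardinal.aleph0.{u}) (a : A) :
    ∃ b t, Reg t ∧ a * t = s * b := by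
  rcases le_or_gt (Cardinal.mk C) Cardinal.aleph0.{u} with hc | hc
  · rw [max_eq_left hc] at h1 h2
    have hι : Cardinal.mk (ULift.{u} ℕ) = Cardinal.aleph0.{u} := by simp
    rcases h1 with h1 | h1
    · -- infinitely many good exponents
      have hfin : (Wey s r).Finite := Cardinal.lt_aleph0_iff_set_finite.1 h1
      have hgood : ∀ b : A, {j : ℕ | IsUnit (1 - b * (r * s ^ j) * s + s * (b * (r * s ^ j)))}.Infinite := by
        intro b
        by_contra hfi
        rw [Set.not_infinite] at hfi
        have hbad : {j : ℕ | ¬ IsUnit (1 - b * (r * s ^ j) * s + s * (b * (r * s ^ j)))}.Infinite := by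
          intro hh
          have : (Set.univ : Set ℕ).Finite := by
            refine Set.Finite.subset (hfi.union hh) ?_
            intro j _
            by_cases hj : IsUnit (1 - b * (r * s ^ j) * s + s * (b * (r * s ^ j)))
            · exact Or.inl hj
            · exact Or.inr hj
          exact Set.infinite_univ this
        have hex : ∀ j : ℕ, ∃ M : Set A, ¬ IsUnit (1 - b * (r * s ^ j) * s + s * (b * (r * s ^ j))) →
            MR M ∧ 1 - b * (r * s ^ j) * s + s * (b * (r * s ^ j)) ∈ M := by
          intro j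
          by_cases hj : IsUnit (1 - b * (r * s ^ j) * s + s * (b * (r * s ^ j)))
          · exact ⟨∅, fun hh => absurd hj hh⟩
          · by_contra hno
            apply hj
            refine isUnit_of h fun M hM hu => hno ⟨M, fun _ => ⟨hM, hu⟩⟩
        choose F hF using hex
        have hinj : Set.InjOn F {j : ℕ | ¬ IsUnit (1 - b * (r * s ^ j) * s + s * (b * (r * s ^ j)))} := by
          have key : ∀ j j' : ℕ, ¬ IsUnit (1 - b * (r * s ^ j) * s + s * (b * (r * s ^ j))) →
              ¬ IsUnit (1 - b * (r * s ^ j') * s + s * (b * (r * s ^ j'))) → F j = F j' →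
              j < j' → False := by
            intro j j' hj hj' hFF hlt
            obtain ⟨hM, hu⟩ := hF j hj
            obtain ⟨_, hu'⟩ := hF j' hj'
            rw [← hFF] at hu'
            refine atmost h hM (x := b * r) (s := s) hlt ?_ ?_
            · have : (b * r * s - s * (b * r)) * s ^ j - 1
                  = -(1 - b * (r * s ^ j) * s + s * (b * (r * s ^ j))) := by
                have e : b * (r * s ^ j) * s = b * r * s * s ^ j := by
                  rw [mul_assoc b r s, mul_assoc b (r * s), mul_assoc r s, ← pow_succ', pow_succ]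
                  noncomm_ring
                rw [e]
                noncomm_ring
              rw [this]
              exact hM.neg hu
            · have : (b * r * s - s * (b * r)) * s ^ j' - 1
                  = -(1 - b * (r * s ^ j') * s + s * (b * (r * s ^ j'))) := by
                have e : b * (r * s ^ j') * s = b * r * s * s ^ j' := by
                  rw [mul_assoc b r s, mul_assoc b (r * s), mul_assoc r s, ← pow_succ', pow_succ]
                  noncomm_ring
                rw [e]
                noncomm_ring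
              rw [this]
              exact hM.neg hu'
          intro j hj j' hj' hFF
          rcases lt_trichotomy j j' with hlt | heq | hgt
          · exact (key j j' hj hj' hFF hlt).elim
          · exact heq
          · exact (key j' j hj' hj hFF.symm hgt).elim
        refine hbad ?_
        refine Set.Finite.of_finite_image (Set.Finite.subset hfin ?_) hinj
        rintro M ⟨j, hj, rfl⟩
        obtain ⟨hM, hu⟩ := hF j hj
        exact mem_wey h hM hu
      choose f hf using fun b => (⟨(hgood b).natEmbedding, (hgood b).natEmbedding.injective⟩ :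
        ∃ f : ℕ → {j : ℕ | IsUnit (1 - b * (r * s ^ j) * s + s * (b * (r * s ^ j)))},
          Function.Injective f)
      refine right_core h a s r hs hr (ι := ULift.{u} ℕ)
        (fun b i => ((1 : A), ((f b i.down : ℕ)))) ?_ ?_ ?_ ?_ ?_ ?_
      · intro b i i' hii
        have h3 : (f b i.down : ℕ) = (f b i'.down : ℕ) := congrArg Prod.snd hii
        exact ULift.ext _ _ (hf b (Subtype.ext h3))
      · intro b i x
        simp
      · intro b i
        simp
      · intro b i i' hne
        exact absurd rfl hne
      · intro b i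
        refine sol_of_unit (y := b * (r * s ^ (f b i.down : ℕ))) ?_ hs
        have h7 : IsUnit (1 - b * (r * s ^ (f b i.down : ℕ)) * s
            + s * (b * (r * s ^ (f b i.down : ℕ)))) := (f b i.down).2
        show IsUnit (1 - b * (r * 1 * s ^ (f b i.down : ℕ)) * s
            + s * (b * (r * s ^ (f b i.down : ℕ))))
        rw [mul_one]
        exact h7
      · rw [hι]
        exact h2
    · refine right_core h a s 1 hs Reg.one (ι := ULift.{u} ℕ)
        (fun b i => ((1 : A), i.down)) ?_ ?_ ?_ ?_ ?_ ?_
      · intro b i i' hii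
        exact ULift.ext _ _ (congrArg Prod.snd hii)
      · intro b i x
        simp
      · intro b i
        simp
      · intro b i i' hne
        exact absurd rfl hne
      · intro b i
        exact h1 _
      · rw [hι]
        exact h2
  · rw [max_eq_right hc.le] at h1 h2
    have hinf : Infinite C := Cardinal.infinite_iff.2 hc.le
    rcases h1 with h1 | h1
    · have hgood : ∀ b : A, ∃ f : C → C, Function.Injective f ∧
          ∀ i, IsUnit (1 - b * (r * (f i : A) * s ^ 0) * s + s * (b * (r * (f i : A) * s ^ 0))) := by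
        intro b
        let G : Set C := {l | IsUnit (1 - b * (r * (l : A)) * s + s * (b * (r * (l : A))))}
        have hex : ∀ l : C, ∃ M : Set A,
            ¬ IsUnit (1 - b * (r * (l : A)) * s + s * (b * (r * (l : A)))) →
            MR M ∧ 1 - b * (r * (l : A)) * s + s * (b * (r * (l : A))) ∈ M := by
          intro l
          by_cases hj : IsUnit (1 - b * (r * (l : A)) * s + s * (b * (r * (l : A))))
          · exact ⟨∅, fun hh => absurd hj hh⟩
          · by_contra hno
            apply hj
            refine isUnit_of h fun M hM hu => hno ⟨M, fun _ => ⟨hM, hu⟩⟩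
        choose F hF using hex
        have hlt : Cardinal.mk (Gᶜ : Set C) < Cardinal.mk C := by
          refine lt_of_le_of_lt ?_ h1
          refine Cardinal.mk_le_of_injective (f := fun l : (Gᶜ : Set C) =>
            (⟨F l.1, mem_wey h (hF l.1 l.2).1 (hF l.1 l.2).2⟩ : Wey s r)) ?_
          intro l l' hll
          have hFF : F l.1 = F l'.1 := congrArg Subtype.val hll
          obtain ⟨hM, hu⟩ := hF l.1 l.2
          obtain ⟨_, hu'⟩ := hF l'.1 l'.2
          rw [← hFF] at hu'
          by_contra hne
          have hne' : ((l.1 : C) : A) ≠ ((l'.1 : C) : A) := by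
            intro hh
            exact hne (Subtype.ext (Subtype.ext hh))
          have hcl := (hC _ l.1.2).2
          have hcl' := (hC _ l'.1.2).2
          have hun := hC' _ l.1.2 _ l'.1.2 hne'
          -- the commutator
          have h3 : (b * r * s - s * (b * r)) * ((l.1 : C) : A) - 1 ∈ F l.1 := by
            have : (b * r * s - s * (b * r)) * ((l.1 : C) : A) - 1
                = -(1 - b * (r * ((l.1 : C) : A)) * s + s * (b * (r * ((l.1 : C) : A)))) := by
              have e : b * (r * ((l.1 : C) : A)) * s = b * r * s * ((l.1 : C) : A) := by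
                rw [mul_assoc (b * r) s, ← hcl s]
                noncomm_ring
              rw [e]
              noncomm_ring
            rw [this]
            exact hM.neg hu
          have h4 : (b * r * s - s * (b * r)) * ((l'.1 : C) : A) - 1 ∈ F l.1 := by
            have : (b * r * s - s * (b * r)) * ((l'.1 : C) : A) - 1
                = -(1 - b * (r * ((l'.1 : C) : A)) * s + s * (b * (r * ((l'.1 : C) : A)))) := by
              have e : b * (r * ((l'.1 : C) : A)) * s = b * r * s * ((l'.1 : C) : A) := by
                rw [mul_assoc (b * r) s, ← hcl' s]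
                noncomm_ring
              rw [e]
              noncomm_ring
            rw [this]
            exact hM.neg hu'
          have h5 : (b * r * s - s * (b * r)) * (((l.1 : C) : A) - ((l'.1 : C) : A)) ∈ F l.1 := by
            have : (b * r * s - s * (b * r)) * (((l.1 : C) : A) - ((l'.1 : C) : A))
                = ((b * r * s - s * (b * r)) * ((l.1 : C) : A) - 1)
                  - ((b * r * s - s * (b * r)) * ((l'.1 : C) : A) - 1) := by noncomm_ring
            rw [this]
            exact hM.sub h3 h4
          have h6 : b * r * s - s * (b * r) ∉ F l.1 := by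
            intro hh
            apply hM.one
            exact hM.of_sub' h3 (hM.mul _ hh _)
          exact hM.prime h h6 (hM.unit_not_mem hun) h5
        have hG : Cardinal.mk G = Cardinal.mk C := by
          have := Cardinal.mk_compl_of_infinite (Gᶜ) hlt
          rwa [compl_compl] at this
        obtain ⟨f⟩ := Cardinal.eq.1 hG.symm
        refine ⟨fun i => (f i).1, fun i i' hii => f.injective (Subtype.ext hii), fun i => ?_⟩
        have h7 : IsUnit (1 - b * (r * ((f i).1 : A)) * s + s * (b * (r * ((f i).1 : A)))) :=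
          (f i).2
        rw [pow_zero, mul_one]
        exact h7
      choose f hf hf' using hgood
      refine right_core h a s r hs hr (ι := C)
        (fun b i => (((f b i : C) : A), 0)) ?_ ?_ ?_ ?_ ?_ h2
      · intro b i i' hii
        have h3 : ((f b i : C) : A) = ((f b i' : C) : A) := congrArg Prod.fst hii
        exact hf b (Subtype.ext h3)
      · intro b i x
        exact (hC _ (f b i).2).2 x
      · intro b i
        exact (hC _ (f b i).2).1
      · intro b i i' hne
        exact hC' _ (f b i).2 _ (f b i').2 hne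
      · intro b i
        exact sol_of_unit (hf' b i) hs
    · refine right_core h a s 1 hs Reg.one (ι := C) (fun b i => ((i : A), 0)) ?_ ?_ ?_ ?_ ?_ h2
      · intro b i i' hii
        exact Subtype.ext (congrArg Prod.fst hii)
      · intro b i x
        exact (hC _ i.2).2 x
      · intro b i
        exact (hC _ i.2).1
      · intro b i i' hne
        exact hC' _ i.2 _ i'.2 hne
      · intro b i
        exact h1 _

end Pool.Agent.Helper47_DR
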