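import Pool.Agent.Helper47_DR.Child

/-!
# The tree of wild maximal ideals

Suppose that for every `b` there is a family `q b i` (`i` in `ι`) of elements of the multiplicatively
closed set `P` such that the sets `WS s (b (q b i))` are pairwise disjoint.  If `WS s b` has fewer
than `ι^ℵ₀` elements then `b t` is in `sA` for some `t` in `P`.
-/

set_option autoImplicit false

namespace Pool.Agent.Helper47_DR

open Pool.Agent.Helper93_DR

universe u

variable {A : Type u} [Ring A] {ι : Type u}

/-- the elements on the branch `f` of the tree -/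
def gg (b : A) (q : A → ι → A) (f : ℕ → ι) : ℕ → A
  | 0 => 1
  | n + 1 => gg b q f n * q (b * gg b q f n) (f n)

theorem gg_congr (b : A) (q : A → ι → A) (f f' : ℕ → ι) (n : ℕ)
    (hf : ∀ m, m < n → f m = f' m) : gg b q f n = gg b q f' n := by
  induction n with
  | zero => rfl
  | succ n ih =>
    have ih' := ih (fun m hm => hf m (by omega))
    have hn := hf n (by omega)
    simp only [gg]
    rw [ih', hn]

theorem gg_mem (b : A) (q : A → ι → A) (f : ℕ → ι) (P : A → Prop) (h1 : P 1)
    (hm : ∀ x y, P x → P y → P (x * y)) (hq : ∀ c i, P (q c i)) (n : ℕ) : P (gg b q f n) := by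
  induction n with
  | zero => exact h1
  | succ n ih =>
    simp only [gg]
    exact hm _ _ ih (hq _ _)

theorem WS_gg_anti (h : RD A) (b s : A) (q : A → ι → A) (f : ℕ → ι) {n m : ℕ} (hnm : n ≤ m) :
    WS s (b * gg b q f m) ⊆ WS s (b * gg b q f n) := by
  induction m, hnm using Nat.le_induction with
  | base => exact subset_rfl
  | succ m _ ih =>
    refine subset_trans ?_ ih
    simp only [gg]
    rw [← mul_assoc]
    exact WS_mul h _ _ _

theorem exists_branch (h : RD A) (b s : A) (q : A → ι → A) (f : ℕ → ι)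
    (hne : ∀ n, (WS s (b * gg b q f n)).Nonempty) :
    ∃ M : Set A, ∀ n, M ∈ WS s (b * gg b q f n) := by
  obtain ⟨M, hM, hH⟩ := exists_MR {r : A | ∃ n, ∀ N ∈ WS s (b * gg b q f n), r ∈ N}
    ⟨0, fun N hN => hN.1.zero⟩
    (by
      rintro x ⟨n, hn⟩ y ⟨m, hm⟩
      refine ⟨max n m, fun N hN => ?_⟩
      exact hN.1.add _ (hn N (WS_gg_anti h b s q f (le_max_left _ _) hN)) _
        (hm N (WS_gg_anti h b s q f (le_max_right _ _) hN)))
    (by
      rintro x ⟨n, hn⟩ r
      exact ⟨n, fun N hN => hN.1.mul _ (hn N hN) _⟩)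
    (by
      rintro ⟨n, hn⟩
      obtain ⟨N, hN⟩ := hne n
      exact hN.1.one (hn N hN))
  exact ⟨M, fun n => ⟨hM, fun r w hr => hH ⟨n, fun N hN => hN.2 r w hr⟩⟩⟩

/-- Theorem K, abstract form. -/
theorem tree (h : RD A) (b s : A) (P : A → Prop) (h1 : P 1)
    (hm : ∀ x y, P x → P y → P (x * y)) (q : A → ι → A) (hq : ∀ c i, P (q c i))
    (hd : ∀ c i i', i ≠ i' → ∀ M, M ∈ WS s (c * q c i) → M ∈ WS s (c * q c i') → False)
    (hW : Cardinal.mk (WS s b) < Cardinal.mk ι ^ Cardinal.aleph0.{u}) :
    ∃ t w, P t ∧ b * t = s * w := by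
  by_contra hno
  have hne : ∀ (f : ℕ → ι) n, (WS s (b * gg b q f n)).Nonempty := by
    intro f n
    rw [Set.nonempty_iff_ne_empty]
    intro hE
    obtain ⟨w, hw⟩ := exists_of_WS_eq_empty hE
    exact hno ⟨_, w, gg_mem b q f P h1 hm hq n, hw⟩
  choose M hM using fun f => exists_branch h b s q f (hne f)
  have hinj : Function.Injective M := by
    intro f f' hff
    by_contra hne'
    obtain ⟨n0, hn0⟩ := Function.ne_iff.1 hne'
    have hex : ∃ n, f n ≠ f' n := ⟨n0, hn0⟩
    classical
    have hn := Nat.find_spec hex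
    have hmin : ∀ m, m < Nat.find hex → f m = f' m := by
      intro m hm
      by_contra hh
      exact Nat.find_min hex hm hh
    generalize Nat.find hex = n at hn hmin
    have e1 := hM f (n + 1)
    have e2 := hM f' (n + 1)
    rw [← hff] at e2
    simp only [gg] at e1 e2
    rw [← gg_congr b q f f' n hmin] at e2
    rw [← mul_assoc] at e1 e2
    exact hd _ _ _ hn _ e1 e2
  refine absurd hW (not_lt.2 ?_)
  have hle : Cardinal.mk (ℕ → ι) ≤ Cardinal.mk (WS s b) := by
    refine Cardinal.mk_le_of_injective (f := fun f => (⟨M f, ?_⟩ : WS s b)) ?_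
    · have := hM f 0
      simpa [gg] using this
    · intro f f' hff
      exact hinj (congrArg Subtype.val hff)
  refine le_trans (le_of_eq ?_) hle
  simp

end Pool.Agent.Helper47_DR
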